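import Mathlib

set_option autoImplicit false

namespace Pool.Agent.Results.MP_15b8d6_gt.Hull

open Set Filter Topology Metric

/-- The set `m(a)` of points of `X` nearest to `a`. -/
def nearest {n : ℕ} (X : Set (EuclideanSpace ℝ (Fin n))) (a : EuclideanSpace ℝ (Fin n)) :
    Set (EuclideanSpace ℝ (Fin n)) := {x ∈ X | dist a x = infDist a X}

/-- The `λ`-medial axis. -/
def medial {n : ℕ} (X : Set (EuclideanSpace ℝ (Fin n))) (l : ℝ) : Set (EuclideanSpace ℝ (Fin n)) :=
  {a | (nearest X a).Nontrivial ∧ ¬ ∃ c, nearest X a ⊆ closedBall c l}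

lemma bdd {E : Type} [NormedAddCommGroup E] [InnerProductSpace ℝ E] {X : Set E} {p : E}
    (hp : p ∈ convexHull ℝ X) : ∃ C, ∀ a, infDist a X ^ 2 - ‖a - p‖ ^ 2 ≤ C := by
  refine convexHull_min (t := {p | ∃ C, ∀ a, infDist a X ^ 2 - ‖a - p‖ ^ 2 ≤ C}) (fun x hx => ⟨0, fun a => ?_⟩) ?_ hp
  · rw [← dist_eq_norm, sub_nonpos]
    exact pow_le_pow_left₀ infDist_nonneg (infDist_le_dist_of_mem hx) 2
  · rintro x ⟨C, hC⟩ y ⟨D, hD⟩ s t hs ht h
    refine ⟨s * C + t * D + s * t * ‖x - y‖ ^ 2, fun a => ?_⟩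
    obtain rfl : s = 1 - t := by linarith
    have e1 : a - ((1 - t) • x + t • y) = (a - x) + t • (x - y) := by module
    have e2 : a - y = (a - x) + (x - y) := by abel
    have h1 := hD a
    rw [e2, norm_add_sq_real] at h1
    rw [e1, norm_add_sq_real, inner_smul_right, norm_smul, mul_pow, Real.norm_eq_abs, sq_abs]
    nlinarith [mul_le_mul_of_nonneg_left h1 ht, mul_le_mul_of_nonneg_left (hC a) hs]

/-- Every point of the convex hull at distance more than `λ` from `X` is `λ`-reconstructible. -/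
theorem result (n : ℕ) (X : Set (EuclideanSpace ℝ (Fin n))) (hX : IsClosed X) (hne : X.Nonempty)
    (l : ℝ) (hl : 0 < l) (p : EuclideanSpace ℝ (Fin n)) (hp : p ∈ convexHull ℝ X) (hd : l < infDist p X) :
    ∃ a ∈ medial X l, p ∈ ball a (infDist a X) := by
  obtain ⟨C, hC⟩ := bdd hp
  obtain ⟨η, hη, e⟩ : ∃ η > 0, infDist p X ^ 2 = l ^ 2 + 8 * η :=
    ⟨(infDist p X ^ 2 - l ^ 2) / 8, by nlinarith, by ring⟩
  have hB : BddAbove (range fun a => infDist a X ^ 2 - ‖a - p‖ ^ 2) := ⟨C, forall_mem_range.2 hC⟩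
  obtain ⟨b, hb⟩ := exists_lt_of_lt_ciSup (sub_lt_self (⨆ a, infDist a X ^ 2 - ‖a - p‖ ^ 2) hη)
  obtain ⟨ε, ε0, ε1, ε2⟩ : ∃ ε > 0, ε ≤ 1 ∧ ε * ‖b - p‖ ^ 2 ≤ η := ⟨η / (η + ‖b - p‖ ^ 2), by positivity,
    div_le_one_of_le₀ (by nlinarith) (by positivity), by
      rw [div_mul_eq_mul_div, div_le_iff₀ (by positivity)]; nlinarith⟩
  obtain ⟨a, ha⟩ := Continuous.exists_forall_ge' (f := fun a => infDist a X ^ 2 - (1 + ε) * ‖a - p‖ ^ 2)
    (((continuous_infDist_pt X).pow 2).sub (by fun_prop)) p (by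
      filter_upwards [(tendsto_dist_right_cocompact_atTop p).eventually_ge_atTop (C / ε + 1),
        (tendsto_dist_right_cocompact_atTop p).eventually_ge_atTop 1] with a h1 h2
      rw [dist_eq_norm] at h1 h2
      have := (div_le_iff₀' ε0).1 (show C / ε ≤ ‖a - p‖ ^ 2 by nlinarith)
      simp only [sub_self, norm_zero]
      nlinarith [hC a, sq_nonneg (infDist p X)])
  have a1 := ha p
  have a2 := ha b
  have a3 := le_ciSup hB a
  simp only [sub_self, norm_zero] at a1
  have a4 : ε * ‖a - p‖ ^ 2 ≤ 2 * η := by linarith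
  have key : ¬ ∃ c, nearest X a ⊆ closedBall c l := by
    rintro ⟨c, hc⟩
    set v := a - c with hv
    set t : ℕ → ℝ := fun k => 1 / ((k : ℝ) + 1) with ht
    have t0 : Tendsto t atTop (𝓝 0) := tendsto_one_div_add_atTop_nhds_zero_nat
    have t1 : Tendsto (fun k => a + t k • v) atTop (𝓝 a) := by simpa using (t0.smul_const v).const_add a
    choose x x1 x2 using fun k => hX.exists_infDist_eq_dist hne (a + t k • v)
    have t2 : Tendsto (fun k => dist (a + t k • v) (x k)) atTop (𝓝 (infDist a X)) :=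
      (((continuous_infDist_pt X).tendsto a).comp t1).congr x2
    obtain ⟨y, y1, φ, φ1, φ2⟩ := ((isCompact_closedBall a (infDist a X + 1 + 1)).inter_right hX).tendsto_subseq'
      (x := x) (Eventually.frequently (by
        filter_upwards [t2.eventually (gt_mem_nhds (lt_add_one _)), t1.eventually (ball_mem_nhds a one_pos)] with k h1 h2
        exact ⟨by rw [mem_closedBall]; linarith [dist_triangle_left (x k) a (a + t k • v)], x1 k⟩))
    have y2 : dist a y = infDist a X := tendsto_nhds_unique ((t1.comp φ1.tendsto_atTop).dist φ2) (t2.comp φ1.tendsto_atTop)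
    have y3 : 2 * inner ℝ (a - y) v - 2 * (1 + ε) * inner ℝ (a - p) v ≤ 0 := by
      refine le_of_tendsto_of_tendsto' (f := fun k => 2 * inner ℝ (a - x (φ k)) v - 2 * (1 + ε) * inner ℝ (a - p) v)
        ((((φ2.const_sub a).inner tendsto_const_nhds).const_mul 2).sub_const _)
        (g := fun k => t (φ k) * (ε * ‖v‖ ^ 2)) (by simpa using (t0.comp φ1.tendsto_atTop).mul_const _) fun k => ?_
      have h1 := ha (a + t (φ k) • v)
      have h2 := pow_le_pow_left₀ infDist_nonneg (infDist_le_dist_of_mem (x := a) (x1 (φ k))) 2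
      have h3 : 0 < t (φ k) := by positivity
      simp only [x2, dist_eq_norm, add_sub_right_comm _ (t _ • v), norm_add_sq_real, inner_smul_right, norm_smul,
        mul_pow, Real.norm_eq_abs, sq_abs] at h1 h2
      refine le_of_mul_le_mul_left ?_ h3
      nlinarith
    have y4 := pow_le_pow_left₀ dist_nonneg (mem_closedBall.1 (hc ⟨y1.2, y2⟩)) 2
    have y5 := sq_nonneg ‖(1 + ε) • (a - p) - v‖
    rw [dist_comm, dist_eq_norm, show c - y = (a - y) - v by simp [hv], norm_sub_sq_real, ← dist_eq_norm, y2] at y4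
    rw [norm_sub_sq_real, inner_smul_left, norm_smul, mul_pow, Real.norm_eq_abs, sq_abs] at y5
    simp only [conj_trivial] at y5
    nlinarith [mul_le_mul_of_nonneg_left a4 ε0.le]
  refine ⟨a, ⟨not_subsingleton_iff.1 fun h => key ?_, key⟩, ?_⟩
  · obtain ⟨y, y1, y2⟩ := hX.exists_infDist_eq_dist hne a
    exact ⟨y, fun z hz => by rw [h hz ⟨y1, y2.symm⟩]; exact mem_closedBall_self hl.le⟩
  · rw [mem_ball', dist_eq_norm]
    refine lt_of_pow_lt_pow_left₀ 2 infDist_nonneg ?_
    nlinarith [sq_nonneg l, mul_nonneg ε0.le (sq_nonneg ‖a - p‖)]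

end Pool.Agent.Results.MP_15b8d6_gt.Hull
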